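import Pool.Agent.K3h75.ND.AllE

/-!
MP_6a3dac_ag: regular proper flat models, outside a fixed finite set of primes, of almost all
hypersurfaces.

Let `K` be a number field, and order the forms of degree `d ≥ 2` in `n + 2 ≥ 3` variables with
coefficients in its ring of integers by the size of the coordinates of the coefficients with respect
to an integral basis. For every `ε > 0` there is an integer `N` such that for all but at most the
proportion `ε` of these forms `F` the hypersurface `F = 0` over every finite extension `E` of `K` is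
smooth and has a regular proper flat model over the ring `𝓞 E [1 / N]`.

So only the primes dividing the fixed integer `N = N (ε)` are left out; at the other primes the
reduction may be bad.
-/

set_option autoImplicit false

open AlgebraicGeometry CategoryTheory CategoryTheory.Limits MvPolynomial

open scoped NumberField

namespace Pool.Agent.Results.MP_6a3dac_ag.AlmostAllHypersurfaces

/-- The partial derivatives of `G` have no common zero (over an algebraic closure) but the origin:
every variable has a power in the ideal they generate. -/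
def IsSmooth {K : Type} [Field K] {m : ℕ} (G : MvPolynomial (Fin m) K) : Prop :=
  ∀ i, X i ∈ (Ideal.span (Set.range fun j => pderiv j G)).radical

/-- The dimension of the local ring `A` equals the dimension of its cotangent space. -/
def HasRegularDimension (A : Type) [CommRing A] [IsLocalRing A] : Prop :=
  ringKrullDim A = (((Module.finrank (IsLocalRing.ResidueField A)
    (IsLocalRing.CotangentSpace A) : ℕ) : ℕ∞) : WithBot ℕ∞)

/-- The generic fibre of `g` is isomorphic over `E` to `X` with the morphism `f`, where `E` is the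
fraction field of `R`. -/
def HasGenericFibre {R E : Type} [CommRing R] [Field E] [Algebra R E] {X Y : Scheme.{0}}
    (f : X ⟶ Spec (CommRingCat.of E)) (g : Y ⟶ Spec (CommRingCat.of R)) : Prop :=
  ∃ e : pullback g (Spec.map (CommRingCat.ofHom (algebraMap R E))) ≅ X,
    e.hom ≫ f = pullback.snd g (Spec.map (CommRingCat.ofHom (algebraMap R E)))

/-- The morphism `g` from `Y` is a regular proper flat model over `R` of `X` with the morphism `f` to
`Spec E`. -/
def IsRegularProperFlatModel {R E : Type} [CommRing R] [Field E] [Algebra R E] {X Y : Scheme.{0}}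
    (f : X ⟶ Spec (CommRingCat.of E)) (g : Y ⟶ Spec (CommRingCat.of R)) : Prop :=
  IsProper g ∧ Flat g ∧ (∀ y : Y, HasRegularDimension (Y.presheaf.stalk y)) ∧ HasGenericFibre f g

/-- The structure morphism of `Proj ℬ` over `E`. -/
noncomputable def structureMorphism {E B : Type} [Field E] [CommRing B] [Algebra E B]
    (ℬ : ℕ → Submodule E B) [GradedAlgebra ℬ] : Proj ℬ ⟶ Spec (CommRingCat.of E) :=
  Proj.toSpecZero ℬ ≫ Spec.map (CommRingCat.ofHom (algebraMap E (ℬ 0)))

/-- Every scheme `X` over `E` isomorphic over `E` to the hypersurface `Proj (E[X] / (G))` has a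
regular proper flat model over `R`. -/
def HypersurfaceHasModel (R : Type) {E : Type} [CommRing R] [Field E] [Algebra R E] {m : ℕ}
    (G : MvPolynomial (Fin m) E) : Prop :=
  ∀ (B : Type) [CommRing B] [Algebra E B]
    (π : MvPolynomial (Fin m) E →ₐ[E] B), Function.Surjective π →
    RingHom.ker π = Ideal.span {G} →
  ∀ (ℬ : ℕ → Submodule E B) [GradedAlgebra ℬ],
    (∀ d, ℬ d = (homogeneousSubmodule (Fin m) E d).map π.toLinearMap) →
  ∀ (X : Scheme.{0}) (f : X ⟶ Spec (CommRingCat.of E)) (i : X ≅ Proj ℬ),
    i.hom ≫ structureMorphism ℬ = f →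
  ∃ (Y : Scheme.{0}) (g : Y ⟶ Spec (CommRingCat.of R)), IsRegularProperFlatModel f g

/-- The set of the forms `F` of degree `d` in `m` variables with coefficients in the ring of integers
of `K`, such that all coordinates of the coefficients of `F` with respect to the integral basis `ω`
have absolute value at most `H`. -/
def boundedForms {K ι : Type} [Field K] (ω : Module.Basis ι ℤ (𝓞 K)) (m d H : ℕ) :
    Set (MvPolynomial (Fin m) (𝓞 K)) :=
  {F | F.IsHomogeneous d ∧ ∀ e i, |ω.repr (F.coeff e) i| ≤ H}

/-- For every number field `E` and every embedding of `K` into `E`, the hypersurface `F = 0` over `E`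
is smooth and has a regular proper flat model over the ring `R = 𝓞 E [1 / N]`. -/
def HasModelsAwayFrom {K : Type} [Field K] {m : ℕ} (N : ℕ) (F : MvPolynomial (Fin m) (𝓞 K)) :
    Prop :=
  ∀ (E R : Type) [Field E] [NumberField E] [CommRing R] [Algebra (𝓞 E) R] [Algebra R E]
    [IsScalarTower (𝓞 E) R E] [IsLocalization.Away (N : 𝓞 E) R] (σ : K →+* E),
    IsSmooth (map (σ.comp (algebraMap (𝓞 K) K)) F) ∧
      HypersurfaceHasModel R (map (σ.comp (algebraMap (𝓞 K) K)) F)

/-- For every `ε > 0` there is a positive integer `N` such that at most the proportion `ε` of the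
forms of degree `d ≥ 2` in `n + 2 ≥ 3` variables over the ring of integers of `K` fails to define
hypersurfaces which have, over all finite extensions `E` of `K`, regular proper flat models over
`𝓞 E [1 / N]`. -/
theorem result (K ι : Type) [Field K] [NumberField K] [Fintype ι] (ω : Module.Basis ι ℤ (𝓞 K))
    (n d : ℕ) (hn : 1 ≤ n) (hd : 2 ≤ d) :
    (∀ H : ℕ, (boundedForms ω (n + 2) d H).Finite) ∧
    ∀ ε : ℝ, 0 < ε → ∃ N : ℕ, 1 ≤ N ∧ ∃ H₀ : ℕ, ∀ H : ℕ, H₀ ≤ H →
      ({F ∈ boundedForms ω (n + 2) d H | ¬ HasModelsAwayFrom N F}.ncard : ℝ) ≤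
        ε * ((boundedForms ω (n + 2) d H).ncard : ℝ) := by
  refine ⟨fun H => (Pool.Agent.K3h75.ND.box_finite ω (n + 2) d H).1, fun ε hε => ?_⟩
  obtain ⟨B, H₀, h⟩ := Pool.Agent.K3h75.ND.countE Pool.Agent.K3h75.ND.cnte_ok ω n d hd
    (fun B F => HasModelsAwayFrom B.factorial F) (by
      intro P a ha E R _ _ _ _ _ _ _ σ
      have hN0 : ((P.factorial : ℕ) : 𝓞 E) ≠ 0 := by
        rw [Nat.cast_ne_zero]
        exact P.factorial_ne_zero
      have h0 : (0 : 𝓞 E) ∉ Submonoid.powers ((P.factorial : ℕ) : 𝓞 E) := by
        rintro ⟨k, hk⟩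
        exact pow_ne_zero k hN0 hk
      have hle : Submonoid.powers ((P.factorial : ℕ) : 𝓞 E) ≤ nonZeroDivisors (𝓞 E) :=
        le_nonZeroDivisors_of_noZeroDivisors h0
      have hloc : IsLocalization (Submonoid.powers ((P.factorial : ℕ) : 𝓞 E)) R := inferInstance
      have hdom : IsDomain R := IsLocalization.isDomain_of_le_nonZeroDivisors R hle
      have hded : IsDedekindDomain R := IsLocalization.isDedekindDomain (𝓞 E) hle R
      have hfr : IsFractionRing R E :=
        IsFractionRing.isFractionRing_of_isDomain_of_isLocalization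
          (Submonoid.powers ((P.factorial : ℕ) : 𝓞 E)) R E
      have hU : IsUnit ((P.factorial : ℕ) : R) := by
        have h1 := IsLocalization.Away.algebraMap_isUnit (S := R) ((P.factorial : ℕ) : 𝓞 E)
        rwa [map_natCast] at h1
      obtain ⟨h1, h2⟩ := Pool.Agent.K3h75.ND.g0e_ok n d P (𝓞 K) a ha E R
        (Submonoid.powers ((P.factorial : ℕ) : 𝓞 E)) h0 hloc (fun p hp hpP => by
          refine isUnit_of_dvd_unit ?_ hU
          exact_mod_cast Nat.cast_dvd_cast (hp.dvd_factorial.2 hpP))
        ((algebraMap (𝓞 E) R).comp (NumberField.RingOfIntegers.mapRingHom σ))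
      have h3 : map (σ.comp (algebraMap (𝓞 K) K)) (Pool.Agent.K3h75.ND.form a) =
          map (algebraMap R E) (Pool.Agent.K3h75.ND.form fun m =>
            ((algebraMap (𝓞 E) R).comp (NumberField.RingOfIntegers.mapRingHom σ)) (a m)) := by
        rw [Pool.Agent.K3h75.ND.map_form', Pool.Agent.K3h75.ND.map_form']
        congr 1
        funext m
        rw [RingHom.comp_apply, RingHom.comp_apply, ← IsScalarTower.algebraMap_apply (𝓞 E) R E]
        rfl
      rw [h3]
      refine ⟨h1, ?_⟩
      intro B _ _ π hπ hker ℬ _ hℬ V f i hi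
      exact Pool.Agent.K3h75.ND.model_nodE Pool.Agent.K3h75.ND.gm_ok hn _ d hd
        (Pool.Agent.K3h75.ND.form_homog _) h1 h2 π hπ hker ℬ hℬ f i hi) ε hε
  exact ⟨B.factorial, Nat.one_le_iff_ne_zero.2 B.factorial_ne_zero, H₀, h⟩

end Pool.Agent.Results.MP_6a3dac_ag.AlmostAllHypersurfaces
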