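import Pool.Agent.K3h75.ND.AllK

/-!
MP_6a3dac_ag: regular proper flat models of a positive proportion of all hypersurfaces.

Let `K` be a number field, and order the forms of degree `d ≥ 2` in `n + 2 ≥ 3` variables with
coefficients in its ring of integers by the size of the coordinates of the coefficients with respect
to an integral basis. For a positive proportion of these forms `F` the hypersurface `F = 0` over
every finite extension `E` of `K` is smooth and has a regular proper flat model over the ring of
integers of `E`. In particular `E = K` is possible, and for `K = ℚ` a positive proportion of all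
integral forms define hypersurfaces with regular proper flat models over the rings of integers of all
number fields.
-/

set_option autoImplicit false

open AlgebraicGeometry CategoryTheory CategoryTheory.Limits MvPolynomial

open scoped NumberField

namespace Pool.Agent.Results.MP_6a3dac_ag.PositiveProportion

/-- The partial derivatives of `G` have no common zero (over an algebraic closure) but the origin:
every variable has a power in the ideal they generate. -/
def IsSmooth {K : Type} [Field K] {m : ℕ} (G : MvPolynomial (Fin m) K) : Prop :=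
  ∀ i, X i ∈ (Ideal.span (Set.range fun j => pderiv j G)).radical

/-- The dimension of the local ring `A` equals the dimension of its cotangent space. -/
def HasRegularDimension (A : Type) [CommRing A] [IsLocalRing A] : Prop :=
  ringKrullDim A = (((Module.finrank (IsLocalRing.ResidueField A)
    (IsLocalRing.CotangentSpace A) : ℕ) : ℕ∞) : WithBot ℕ∞)

/-- The generic fibre of `g` is isomorphic over `E` to `X` with the morphism `f`. -/
def HasGenericFibre {E : Type} [Field E] {X Y : Scheme.{0}}
    (f : X ⟶ Spec (CommRingCat.of E)) (g : Y ⟶ Spec (CommRingCat.of (𝓞 E))) : Prop :=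
  ∃ e : pullback g (Spec.map (CommRingCat.ofHom (algebraMap (𝓞 E) E))) ≅ X,
    e.hom ≫ f = pullback.snd g (Spec.map (CommRingCat.ofHom (algebraMap (𝓞 E) E)))

/-- The morphism `g` from `Y` is a regular proper flat model over the ring of integers of `E` of `X`
with the morphism `f` to `Spec E`. -/
def IsRegularProperFlatModel {E : Type} [Field E] {X Y : Scheme.{0}}
    (f : X ⟶ Spec (CommRingCat.of E)) (g : Y ⟶ Spec (CommRingCat.of (𝓞 E))) : Prop :=
  IsProper g ∧ Flat g ∧ (∀ y : Y, HasRegularDimension (Y.presheaf.stalk y)) ∧ HasGenericFibre f g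

/-- The structure morphism of `Proj ℬ` over `E`. -/
noncomputable def structureMorphism {E B : Type} [Field E] [CommRing B] [Algebra E B]
    (ℬ : ℕ → Submodule E B) [GradedAlgebra ℬ] : Proj ℬ ⟶ Spec (CommRingCat.of E) :=
  Proj.toSpecZero ℬ ≫ Spec.map (CommRingCat.ofHom (algebraMap E (ℬ 0)))

/-- Every scheme `X` over `E` isomorphic over `E` to the hypersurface `Proj (E[X] / (G))` has a
regular proper flat model over the ring of integers of `E`. -/
def HypersurfaceHasModel {E : Type} [Field E] {m : ℕ} (G : MvPolynomial (Fin m) E) : Prop :=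
  ∀ (B : Type) [CommRing B] [Algebra E B]
    (π : MvPolynomial (Fin m) E →ₐ[E] B), Function.Surjective π →
    RingHom.ker π = Ideal.span {G} →
  ∀ (ℬ : ℕ → Submodule E B) [GradedAlgebra ℬ],
    (∀ d, ℬ d = (homogeneousSubmodule (Fin m) E d).map π.toLinearMap) →
  ∀ (X : Scheme.{0}) (f : X ⟶ Spec (CommRingCat.of E)) (i : X ≅ Proj ℬ),
    i.hom ≫ structureMorphism ℬ = f →
  ∃ (Y : Scheme.{0}) (g : Y ⟶ Spec (CommRingCat.of (𝓞 E))), IsRegularProperFlatModel f g

/-- The set of the forms `F` of degree `d` in `m` variables with coefficients in the ring of integers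
of `K`, such that all coordinates of the coefficients of `F` with respect to the integral basis `ω`
have absolute value at most `H`. -/
def boundedForms {K ι : Type} [Field K] (ω : Module.Basis ι ℤ (𝓞 K)) (m d H : ℕ) :
    Set (MvPolynomial (Fin m) (𝓞 K)) :=
  {F | F.IsHomogeneous d ∧ ∀ e i, |ω.repr (F.coeff e) i| ≤ H}

/-- For every number field `E` and every embedding of `K` into `E`, the hypersurface `F = 0` over `E`
is smooth and has a regular proper flat model over the ring of integers of `E`. -/
def HasModelsOverAllExtensions {K : Type} [Field K] {m : ℕ} (F : MvPolynomial (Fin m) (𝓞 K)) :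
    Prop :=
  ∀ (E : Type) [Field E] [NumberField E] (σ : K →+* E),
    IsSmooth (map (σ.comp (algebraMap (𝓞 K) K)) F) ∧
      HypersurfaceHasModel (map (σ.comp (algebraMap (𝓞 K) K)) F)

/-- A positive proportion of all forms of degree `d ≥ 2` in `n + 2 ≥ 3` variables over the ring of
integers of `K` define smooth hypersurfaces which have regular proper flat models over the rings of
integers of all finite extensions of `K`. -/
theorem result (K ι : Type) [Field K] [NumberField K] [Fintype ι] (ω : Module.Basis ι ℤ (𝓞 K))
    (n d : ℕ) (hn : 1 ≤ n) (hd : 2 ≤ d) :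
    (∀ H : ℕ, (boundedForms ω (n + 2) d H).Finite) ∧
    ∃ c : ℝ, 0 < c ∧ ∃ H₀ : ℕ, ∀ H : ℕ, H₀ ≤ H →
      c * ((boundedForms ω (n + 2) d H).ncard : ℝ) ≤
        ({F ∈ boundedForms ω (n + 2) d H | HasModelsOverAllExtensions F}.ncard : ℝ) := by
  refine ⟨fun H => (Pool.Agent.K3h75.ND.box_finite ω (n + 2) d H).1, ?_⟩
  refine Pool.Agent.K3h75.ND.count Pool.Agent.K3h75.ND.cnto_ok ω n d hd
    HasModelsOverAllExtensions ?_
  intro a ha E _ _ σ
  obtain ⟨h1, h2⟩ := Pool.Agent.K3h75.ND.g0o_ok n d (𝓞 K) a ha E
    (NumberField.RingOfIntegers.mapRingHom σ)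
  have h3 : map (σ.comp (algebraMap (𝓞 K) K)) (Pool.Agent.K3h75.ND.form a) =
      map (algebraMap (𝓞 E) E) (Pool.Agent.K3h75.ND.form fun m =>
        NumberField.RingOfIntegers.mapRingHom σ (a m)) := by
    rw [Pool.Agent.K3h75.ND.map_form', Pool.Agent.K3h75.ND.map_form']
    rfl
  rw [h3]
  refine ⟨h1, ?_⟩
  intro B _ _ π hπ hker ℬ _ hℬ V f i hi
  exact Pool.Agent.K3h75.ND.model_nod Pool.Agent.K3h75.ND.gm_ok hn _ d hd
    (Pool.Agent.K3h75.ND.form_homog _) h1 h2 π hπ hker ℬ hℬ f i hi

end Pool.Agent.Results.MP_6a3dac_ag.PositiveProportion
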