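import Pool.Agent.K3h75.NW.AllEW

/-!
MP_6a3dac_ag: regular proper flat models of coverings of projective spaces: a positive proportion of
all coverings, and almost all of them outside a fixed finite set of primes.

Let `K` be a number field, `n ≥ 1`, `e ≥ 1` and `m ≥ 2` with `m e ≥ 3`. The coverings of degree `m`
of the projective space of dimension `n` embedded in the total space of the line bundle `O(e)` are
`w ^ m + a_1(x) w ^ (m-1) + ... + a_m(x) = 0`, where `a_i` is a form of degree `i e` in
`x_0, ..., x_n`. Order those with coefficients in the ring of integers of `K` by the size of the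
coordinates of the coefficients with respect to an integral basis.

1. For a positive proportion of these coverings, the covering over every finite extension `E` of `K`
   is smooth and has a regular proper flat model over the ring of integers of `E`.
2. For every `ε > 0` there is an integer `N` such that for all but at most the proportion `ε` of
   these coverings, the covering over every finite extension `E` of `K` is smooth and has a regular
   proper flat model over the ring `𝓞 E [1 / N]`.
-/

set_option autoImplicit false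

open AlgebraicGeometry CategoryTheory CategoryTheory.Limits MvPolynomial

open scoped NumberField

namespace Pool.Agent.Results.MP_6a3dac_ag.PositiveProportionCoverings

/-- The weights: the variable `w = X none` has weight `e`, the variables `X (some i)` have weight
one. -/
def weight {n : ℕ} (e : ℕ) : Option (Fin n) → ℕ := fun o => o.elim e (fun _ => 1)

/-- The partial derivatives of `G` have no common zero (over an algebraic closure) but the origin:
every variable has a power in the ideal they generate. -/
def IsSmooth {K σ : Type} [Field K] (G : MvPolynomial σ K) : Prop :=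
  ∀ i, X i ∈ (Ideal.span (Set.range fun j => pderiv j G)).radical

/-- The dimension of the local ring `A` equals the dimension of its cotangent space. -/
def HasRegularDimension (A : Type) [CommRing A] [IsLocalRing A] : Prop :=
  ringKrullDim A = (((Module.finrank (IsLocalRing.ResidueField A)
    (IsLocalRing.CotangentSpace A) : ℕ) : ℕ∞) : WithBot ℕ∞)

/-- The generic fibre of `g` is isomorphic over `E` to `X` with the morphism `f`, where `E` is the
fraction field of `R`. -/
def HasGenericFibre {R E : Type} [CommRing R] [Field E] [Algebra R E] {X Y : Scheme.{0}}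
    (f : X ⟶ Spec (CommRingCat.of E)) (g : Y ⟶ Spec (CommRingCat.of R)) : Prop :=
  ∃ e : pullback g (Spec.map (CommRingCat.ofHom (algebraMap R E))) ≅ X,
    e.hom ≫ f = pullback.snd g (Spec.map (CommRingCat.ofHom (algebraMap R E)))

/-- The morphism `g` from `Y` is a regular proper flat model over `R` of `X` with the morphism `f` to
`Spec E`. -/
def IsRegularProperFlatModel {R E : Type} [CommRing R] [Field E] [Algebra R E] {X Y : Scheme.{0}}
    (f : X ⟶ Spec (CommRingCat.of E)) (g : Y ⟶ Spec (CommRingCat.of R)) : Prop :=
  IsProper g ∧ Flat g ∧ (∀ y : Y, HasRegularDimension (Y.presheaf.stalk y)) ∧ HasGenericFibre f g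

/-- The structure morphism of `Proj ℬ` over `E`. -/
noncomputable def structureMorphism {E B : Type} [Field E] [CommRing B] [Algebra E B]
    (ℬ : ℕ → Submodule E B) [GradedAlgebra ℬ] : Proj ℬ ⟶ Spec (CommRingCat.of E) :=
  Proj.toSpecZero ℬ ≫ Spec.map (CommRingCat.ofHom (algebraMap E (ℬ 0)))

/-- Every scheme `X` over `E` isomorphic over `E` to the weighted hypersurface `P = 0` has a regular
proper flat model over `R`. Here the weighted hypersurface is `Proj` of the graded ring `ℬ` whose
part of degree `d` is the part of weight `d e` of `E[x, w] / (P)` (by `j`, which identifies the ring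
with a subring of `E[x, w] / (P)`). -/
def CoverHasModel (R : Type) {E : Type} [CommRing R] [Field E] [Algebra R E] {n : ℕ} (e : ℕ)
    (P : MvPolynomial (Option (Fin n)) E) : Prop :=
  ∀ (B : Type) [CommRing B] [Algebra E B]
    (j : B →ₐ[E] (MvPolynomial (Option (Fin n)) E ⧸ Ideal.span {P})), Function.Injective j →
  ∀ (ℬ : ℕ → Submodule E B) [GradedAlgebra ℬ],
    (∀ d, (ℬ d).map j.toLinearMap = (weightedHomogeneousSubmodule E (weight e) (d * e)).map
      (Ideal.Quotient.mkₐ E (Ideal.span {P})).toLinearMap) →
  ∀ (X : Scheme.{0}) (f : X ⟶ Spec (CommRingCat.of E)) (i : X ≅ Proj ℬ),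
    i.hom ≫ structureMorphism ℬ = f →
  ∃ (Y : Scheme.{0}) (g : Y ⟶ Spec (CommRingCat.of R)), IsRegularProperFlatModel f g

/-- `F` is weighted homogeneous of weight `m e` and the coefficient of `w ^ m` is one:
`F = w ^ m + a_1(x) w ^ (m-1) + ... + a_m(x)` with forms `a_i` of degree `i e`. -/
def IsMonicForm {R : Type} [CommRing R] {n : ℕ} (e m : ℕ)
    (F : MvPolynomial (Option (Fin n)) R) : Prop :=
  F.IsWeightedHomogeneous (weight e) (m * e) ∧ coeff (Finsupp.single none m) F = 1

/-- The set of the equations `F` of coverings of degree `m` of the projective space of dimension `n`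
with coefficients in the ring of integers of `K`, such that all coordinates of the coefficients of
`F`, except for that of `w ^ m`, with respect to the integral basis `ω` have absolute value at most
`H`. -/
def boundedCoverings {K ι : Type} [Field K] (ω : Module.Basis ι ℤ (𝓞 K)) (n e m H : ℕ) :
    Set (MvPolynomial (Option (Fin (n + 1))) (𝓞 K)) :=
  {F | IsMonicForm e m F ∧ ∀ s, s ≠ Finsupp.single none m → ∀ i, |ω.repr (F.coeff s) i| ≤ H}

/-- For every number field `E` and every embedding of `K` into `E`, the covering `F = 0` over `E`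
is smooth and has a regular proper flat model over the ring of integers of `E`. -/
def HasModelsOverAllExtensions {K : Type} [Field K] {n : ℕ} (e : ℕ)
    (F : MvPolynomial (Option (Fin n)) (𝓞 K)) : Prop :=
  ∀ (E : Type) [Field E] [NumberField E] (σ : K →+* E),
    IsSmooth (map (σ.comp (algebraMap (𝓞 K) K)) F) ∧
      CoverHasModel (𝓞 E) e (map (σ.comp (algebraMap (𝓞 K) K)) F)

/-- For every number field `E` and every embedding of `K` into `E`, the covering `F = 0` over `E`
is smooth and has a regular proper flat model over the ring `R = 𝓞 E [1 / N]`. -/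
def HasModelsAwayFrom {K : Type} [Field K] {n : ℕ} (e N : ℕ)
    (F : MvPolynomial (Option (Fin n)) (𝓞 K)) : Prop :=
  ∀ (E R : Type) [Field E] [NumberField E] [CommRing R] [Algebra (𝓞 E) R] [Algebra R E]
    [IsScalarTower (𝓞 E) R E] [IsLocalization.Away (N : 𝓞 E) R] (σ : K →+* E),
    IsSmooth (map (σ.comp (algebraMap (𝓞 K) K)) F) ∧
      CoverHasModel R e (map (σ.comp (algebraMap (𝓞 K) K)) F)

theorem smooth_all {E ι : Type} [Field E] [CharZero E] [Fintype ι] (e m : ℕ) (he : 1 ≤ e)
    (hm : 1 ≤ m) (P : MvPolynomial (Option ι) E)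
    (hPd : P.IsWeightedHomogeneous (Pool.Agent.R187.WC.wt e) (m * e))
    (hc : coeff (Finsupp.single none m) P ≠ 0) (hsm : Pool.Agent.R187.WC.SmoothW P) :
    IsSmooth P := by
  intro i
  rcases i with _ | i
  · exact Pool.Agent.K3h75.NW.none_mem e m he hm P hPd hc hsm
  · exact hsm i

/-- 1. A positive proportion of all coverings has models over the rings of integers of all finite
extensions. 2. All but the proportion `ε` of the coverings have models over `𝓞 E [1 / N]`, where `N`
depends on `ε` only. -/
theorem result (K ι : Type) [Field K] [NumberField K] [Fintype ι] (ω : Module.Basis ι ℤ (𝓞 K))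
    (n e m : ℕ) (hn : 1 ≤ n) (he : 1 ≤ e) (hm : 2 ≤ m) (hme : 3 ≤ m * e) :
    (∀ H : ℕ, (boundedCoverings ω n e m H).Finite) ∧
    (∃ c : ℝ, 0 < c ∧ ∃ H₀ : ℕ, ∀ H : ℕ, H₀ ≤ H →
      c * ((boundedCoverings ω n e m H).ncard : ℝ) ≤
        ({F ∈ boundedCoverings ω n e m H | HasModelsOverAllExtensions e F}.ncard : ℝ)) ∧
    ∀ ε : ℝ, 0 < ε → ∃ N : ℕ, 1 ≤ N ∧ ∃ H₀ : ℕ, ∀ H : ℕ, H₀ ≤ H →
      ({F ∈ boundedCoverings ω n e m H | ¬ HasModelsAwayFrom e N F}.ncard : ℝ) ≤
        ε * ((boundedCoverings ω n e m H).ncard : ℝ) := by
  refine ⟨fun H => (Pool.Agent.K3h75.NW.wbox_finite ω n e m H he).1, ?_, fun ε hε => ?_⟩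
  · refine Pool.Agent.K3h75.NW.countW Pool.Agent.K3h75.NW.cntw_ok ω n e m hn he hm hme
      (HasModelsOverAllExtensions e) ?_
    intro a ha E _ _ σ
    obtain ⟨h1, h2⟩ := Pool.Agent.K3h75.NW.g0w_ok n e m he (by omega) (𝓞 K) a ha E
      (NumberField.RingOfIntegers.mapRingHom σ)
    have h3 : map (σ.comp (algebraMap (𝓞 K) K)) (Pool.Agent.K3h75.NW.wform a) =
        map (algebraMap (𝓞 E) E) (Pool.Agent.K3h75.NW.wform fun s =>
          NumberField.RingOfIntegers.mapRingHom σ (a s)) := by
      rw [Pool.Agent.K3h75.NW.map_wform, Pool.Agent.K3h75.NW.map_wform]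
      rfl
    rw [h3]
    refine ⟨smooth_all e m he (by omega) _ (Pool.Agent.R187.WC.whom_map _
      (Pool.Agent.K3h75.NW.wform_homog _)) ?_ h1, ?_⟩
    · rw [coeff_map, Pool.Agent.K3h75.NW.coeff_wform_top, map_one]
      exact one_ne_zero
    · intro B _ _ j hj ℬ _ hℬ V f i hi
      exact Pool.Agent.K3h75.NW.model_nodW Pool.Agent.K3h75.NW.gmw_ok hn e m he (by omega) _
        (Pool.Agent.K3h75.NW.wform_homog _) (Pool.Agent.K3h75.NW.coeff_wform_top _) h1 h2 j hj ℬ hℬ
        f i hi
  · obtain ⟨B, H₀, h⟩ := Pool.Agent.K3h75.NW.countEW Pool.Agent.K3h75.NW.cntew_ok ω n e m hn he hm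
      (fun B F => HasModelsAwayFrom e B.factorial F) (by
        intro P a ha E R _ _ _ _ _ _ _ σ
        have hN0 : ((P.factorial : ℕ) : 𝓞 E) ≠ 0 := by
          rw [Nat.cast_ne_zero]
          exact P.factorial_ne_zero
        have h0 : (0 : 𝓞 E) ∉ Submonoid.powers ((P.factorial : ℕ) : 𝓞 E) := by
          rintro ⟨k, hk⟩
          exact pow_ne_zero k hN0 hk
        have hle : Submonoid.powers ((P.factorial : ℕ) : 𝓞 E) ≤ nonZeroDivisors (𝓞 E) :=
          le_nonZeroDivisors_of_noZeroDivisors h0
        have hloc : IsLocalization (Submonoid.powers ((P.factorial : ℕ) : 𝓞 E)) R := inferInstance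
        have hdom : IsDomain R := IsLocalization.isDomain_of_le_nonZeroDivisors R hle
        have hded : IsDedekindDomain R := IsLocalization.isDedekindDomain (𝓞 E) hle R
        have hfr : IsFractionRing R E :=
          IsFractionRing.isFractionRing_of_isDomain_of_isLocalization
            (Submonoid.powers ((P.factorial : ℕ) : 𝓞 E)) R E
        have hU : IsUnit ((P.factorial : ℕ) : R) := by
          have h1 := IsLocalization.Away.algebraMap_isUnit (S := R) ((P.factorial : ℕ) : 𝓞 E)
          rwa [map_natCast] at h1
        obtain ⟨h1, h2⟩ := Pool.Agent.K3h75.NW.g0ew_ok n e m P he (by omega) (𝓞 K) a ha E R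
          (Submonoid.powers ((P.factorial : ℕ) : 𝓞 E)) h0 hloc (fun p hp hpP => by
            refine isUnit_of_dvd_unit ?_ hU
            exact_mod_cast Nat.cast_dvd_cast (hp.dvd_factorial.2 hpP))
          ((algebraMap (𝓞 E) R).comp (NumberField.RingOfIntegers.mapRingHom σ))
        have h3 : map (σ.comp (algebraMap (𝓞 K) K)) (Pool.Agent.K3h75.NW.wform a) =
            map (algebraMap R E) (Pool.Agent.K3h75.NW.wform fun s =>
              ((algebraMap (𝓞 E) R).comp (NumberField.RingOfIntegers.mapRingHom σ)) (a s)) := by
          rw [Pool.Agent.K3h75.NW.map_wform, Pool.Agent.K3h75.NW.map_wform]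
          congr 1
          funext s
          rw [RingHom.comp_apply, RingHom.comp_apply, ← IsScalarTower.algebraMap_apply (𝓞 E) R E]
          rfl
        rw [h3]
        refine ⟨smooth_all e m he (by omega) _ (Pool.Agent.R187.WC.whom_map _
          (Pool.Agent.K3h75.NW.wform_homog _)) ?_ h1, ?_⟩
        · rw [coeff_map, Pool.Agent.K3h75.NW.coeff_wform_top, map_one]
          exact one_ne_zero
        · intro B _ _ j hj ℬ _ hℬ V f i hi
          exact Pool.Agent.K3h75.NW.model_nodEW Pool.Agent.K3h75.NW.gmw_ok hn e m he (by omega) _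
            (Pool.Agent.K3h75.NW.wform_homog _) (Pool.Agent.K3h75.NW.coeff_wform_top _) h1 h2 j hj
            ℬ hℬ f i hi) ε hε
    exact ⟨B.factorial, Nat.one_le_iff_ne_zero.2 B.factorial_ne_zero, H₀, h⟩

end Pool.Agent.Results.MP_6a3dac_ag.PositiveProportionCoverings
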