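import Pool.Agent.R383.TM.NumF
import Pool.Agent.Y223.G.AllW
import Pool.Agent.Y223.G.AllP
import Pool.Agent.Y563.G.Wch
import Pool.Agent.Y901.G.Wreg
import Pool.Agent.K3h75.TO.VNz
import Pool.Agent.K3h75.TV.Good
import Pool.Agent.K3h26.Lat
import Pool.Agent.K3h8.Exb
import Pool.Agent.K3h77.EXA
import Pool.Agent.K3h77.EXC
import Pool.Agent.K3h21.TO.Exd
import Pool.Agent.K3h21.TO.Num

/-!
MP_6a3dac_ag: regular proper flat models of smooth projective toric varieties (equivariant
compactifications of algebraic tori) over number fields, in every dimension, with wild ramification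
of order `p`.

Let `T` be an algebraic torus over the number field `E` which splits over the Galois extension `M`
of `E`, and suppose that the order of the inertia group (the ramification index over `E`) of every
prime of `M` is not divisible by the square of the residue characteristic. Let `P` be a smooth
polytope in the lattice `Λ` of the characters of `T`, stable under the Galois group, and let `V` be
the toric variety with this polytope: the smooth projective variety over `E` which contains `T` as
an open subset, on which `T` acts, and whose linear forms, over `M`, are the combinations of the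
characters in `P`. Then `V` has a regular proper flat model over the ring of integers of `E`. Every
torus has such compactifications.

The proof: (1) a lattice with an action of a finite group has a stable smooth projective fan
(Brylinski, Künnemann, Colliot-Thélène, Harari, Skorobogatov), here with a complete proof. (2) The
toric scheme over the integers of `M` is regular, with linear Galois action. (3) At a wild prime,
with the wild automorphism `σ` of order `p`, the action `τ` on the lattice and the ramification
number `l`, we add the homogeneous coordinates `(σ ^ e - 1) ^ a (x μ - x ν)`, with the weight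
`(a + 1) l`, for `a < p` and all `μ`, `ν` in a multiple of `P` for which the norm of `μ - ν` is zero.
The weighted blowup is regular, and the leading form of `σ - 1` has no zeros outside the vertex. So
the theorem on weighted wild quotients of the starting files
(MP_6a3dac_ag.WeightedWildQuotients) applies, in the form for Veronese embeddings.

Project of helper75 (see also MP_4d1008_ag.AlgebraicTori); helpers 26 (lattices over `ℤ[ζ]`), 44
(orbits), 66 (parameters, charts, assembly), 9 (Jacobian condition), 22 (polytopes, covers), 8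
(fixed points, star subdivisions), 77 (hyperplane arrangements), 21 (smooth polytopes, number
fields).
-/

set_option autoImplicit false

open AlgebraicGeometry CategoryTheory CategoryTheory.Limits MvPolynomial

open scoped NumberField

namespace Pool.Agent.Results.MP_6a3dac_ag.ToricVarieties

/-- The inertia group of the ideal `𝔓` of the ring of integers of `M`: the automorphisms of `M` over
`E` which act trivially modulo `𝔓`. -/
def inertiaGroup (E : Type) {M : Type} [Field E] [Field M] [Algebra E M] (𝔓 : Ideal (𝓞 M)) :
    Set (M ≃ₐ[E] M) :=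
  {g | ∀ o : 𝓞 M, ∃ e ∈ 𝔓, (e : M) = g o - o}

/-- The order of the inertia group of the maximal ideal `𝔓` (the ramification index of `𝔓` over `E`)
is divisible by `r ^ i`, where `r` is the residue characteristic. -/
def ResCharPowDvd (E : Type) {M : Type} [Field E] [Field M] [Algebra E M] (𝔓 : Ideal (𝓞 M))
    (i : ℕ) : Prop :=
  ∃ r : ℕ, r.Prime ∧ (r : 𝓞 M) ∈ 𝔓 ∧ r ^ i ∣ Nat.card (inertiaGroup E 𝔓)

/-- `P` is the set of the lattice points of a smooth polytope, in the following sense: for every
`μ ∈ P` there is a vertex `v` of the smallest face which contains `μ` (that is, a multiple of `μ` is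
a sum of points of `P` one of which is `v`) such that the neighbours `v + b i` of `v` in `P` on the
edges through `v` form, together with `v`, an affine basis of the lattice, with respect to which all
points of `P` have nonnegative coordinates. -/
structure IsSmoothPolytope {Λ : Type} [AddCommGroup Λ] (P : Finset Λ) : Prop where
  nonempty : P.Nonempty
  vertex : ∀ μ ∈ P, ∃ v ∈ P,
    (∃ s : Multiset Λ, (∀ κ ∈ s, κ ∈ P) ∧ (s.card + 1) • μ = v + s.sum) ∧
    ∃ (n : ℕ) (b : Module.Basis (Fin n) ℤ Λ),
      (∀ i, v + b i ∈ P) ∧ ∀ κ ∈ P, ∀ i, 0 ≤ b.repr (κ - v) i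

/-- `K` is the function field of the split torus over `M` with the lattice of characters `Λ`: it is
generated over `M` by the characters `x a`, `a ∈ Λ`, which are multiplicative and linearly
independent over `M`; and the Galois group of `M` over `E` acts on `K` (by `ρ`) through its action on
`M` and on the lattice of characters. The field of invariants is the function field of the torus over
`E` with the lattice of characters `Λ`. -/
structure IsTorusFunctionField {E M Λ K : Type} [Field E] [Field M] [Algebra E M]
    [AddCommGroup Λ] [DistribMulAction (M ≃ₐ[E] M) Λ] [Field K] [Algebra M K] [Algebra E K]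
    (ρ : (M ≃ₐ[E] M) →* (K ≃ₐ[E] K)) (x : Λ → K) : Prop where
  zero : x 0 = 1
  add : ∀ a b, x (a + b) = x a * x b
  linearIndependent : LinearIndependent M x
  generates : IntermediateField.adjoin M (Set.range x) = ⊤
  semilinear : ∀ g c, ρ g (algebraMap M K c) = algebraMap M K (g c)
  equivariant : ∀ g a, ρ g (x a) = x (g • a)

/-- `u` are homogeneous coordinates in the field `F` of the variety with the homogeneous coordinate
ring `B` over `E`: a form vanishes in `B` if and only if it vanishes at `u`. -/
def IsCoordinates {E F B : Type} [Field E] [Field F] [Algebra E F] [CommRing B] [Algebra E B]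
    {n : ℕ} (π : MvPolynomial (Fin (n + 1)) E →ₐ[E] B) (u : Fin (n + 1) → F) : Prop :=
  ∀ d, ∀ Q : MvPolynomial (Fin (n + 1)) E, Q.IsHomogeneous d → (π Q = 0 ↔ aeval u Q = 0)

/-- The `M`-linear combinations of the homogeneous coordinates `u` are those of the characters `x μ`,
`μ ∈ P`: over `M`, the variety with the homogeneous coordinates `u` is the toric variety with the
polytope `P`. -/
def HasLinearForms (M : Type) {Λ F K : Type} [Field M] [Field F] [Field K] [Algebra M K]
    [Algebra F K] (x : Λ → K) (P : Finset Λ) {n : ℕ} (u : Fin (n + 1) → F) : Prop :=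
  Submodule.span M (Set.range fun i => algebraMap F K (u i)) = Submodule.span M (x '' (P : Set Λ))

/-- The dimension of the local ring `A` equals the dimension of its cotangent space. -/
def HasRegularDimension (A : Type) [CommRing A] [IsLocalRing A] : Prop :=
  ringKrullDim A = (((Module.finrank (IsLocalRing.ResidueField A)
    (IsLocalRing.CotangentSpace A) : ℕ) : ℕ∞) : WithBot ℕ∞)

/-- The generic fibre of `g` is isomorphic over `E` to `V` with the morphism `f`. -/
def HasGenericFibre {E : Type} [Field E] {V Y : Scheme.{0}}
    (f : V ⟶ Spec (CommRingCat.of E)) (g : Y ⟶ Spec (CommRingCat.of (𝓞 E))) : Prop :=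
  ∃ e : pullback g (Spec.map (CommRingCat.ofHom (algebraMap (𝓞 E) E))) ≅ V,
    e.hom ≫ f = pullback.snd g (Spec.map (CommRingCat.ofHom (algebraMap (𝓞 E) E)))

/-- The morphism `g` from `Y` is a regular proper flat model over the ring of integers of `E` of `V`
with the morphism `f` to `Spec E`. -/
def IsRegularProperFlatModel {E : Type} [Field E] {V Y : Scheme.{0}}
    (f : V ⟶ Spec (CommRingCat.of E)) (g : Y ⟶ Spec (CommRingCat.of (𝓞 E))) : Prop :=
  IsProper g ∧ Flat g ∧ (∀ y : Y, HasRegularDimension (Y.presheaf.stalk y)) ∧ HasGenericFibre f g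

/-- The structure morphism of `Proj ℬ` over `E`. -/
noncomputable def structureMorphism {E B : Type} [Field E] [CommRing B] [Algebra E B]
    (ℬ : ℕ → Submodule E B) [GradedAlgebra ℬ] : Proj ℬ ⟶ Spec (CommRingCat.of E) :=
  Proj.toSpecZero ℬ ≫ Spec.map (CommRingCat.ofHom (algebraMap E (ℬ 0)))

/-- Let `E` be a number field and `M` a Galois extension such that the order of the inertia group
over `E` of every prime of `M` is not divisible by the square of the residue characteristic, and let
`Λ` be a lattice with an action of the Galois group, the lattice of characters of a torus `T` over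
`E` which splits over `M`.

(1) There is a smooth polytope `P` in `Λ` which is stable under the Galois group.

(2) For every such polytope `P`, the toric variety `V` over `E` with the polytope `P` (the smooth
projective equivariant compactification of `T`, embedded by the linear forms in the characters in
`P`) has a regular proper flat model over the ring of integers of `E`. -/
theorem result :
    ∀ (E M : Type) [Field E] [NumberField E] [Field M] [NumberField M] [Algebra E M]
      [IsGalois E M],
      -- the wild inertia groups have order at most the residue characteristic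
      (∀ 𝔓 : Ideal (𝓞 M), 𝔓.IsMaximal → ¬ ResCharPowDvd E 𝔓 2) →
      -- the lattice of characters of the torus, with the action of the Galois group
      ∀ (Λ : Type) [AddCommGroup Λ] [Module.Free ℤ Λ] [Module.Finite ℤ Λ]
      [DistribMulAction (M ≃ₐ[E] M) Λ],
      (∃ P : Finset Λ, IsSmoothPolytope P ∧ ∀ (g : M ≃ₐ[E] M), ∀ μ ∈ P, g • μ ∈ P) ∧
      -- the polytope
      ∀ P : Finset Λ, IsSmoothPolytope P → (∀ (g : M ≃ₐ[E] M), ∀ μ ∈ P, g • μ ∈ P) →
      -- the function field `F` of the torus over `E`, and the function field `K` over `M`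
      ∀ (F K : Type) [Field F] [Field K] [Algebra E F] [Algebra M K] [Algebra E K]
      [IsScalarTower E M K] [Algebra F K] [IsScalarTower E F K]
      (ρ : (M ≃ₐ[E] M) →* (K ≃ₐ[E] K)) (x : Λ → K), IsTorusFunctionField ρ x →
      (∀ y, (∀ g, ρ g y = y) ↔ ∃ f : F, algebraMap F K f = y) →
      -- the toric variety over `E`
      ∀ (n : ℕ) (B : Type) [CommRing B] [Algebra E B] (π : MvPolynomial (Fin (n + 1)) E →ₐ[E] B),
      Function.Surjective π →
      ∀ (ℬ : ℕ → Submodule E B) [GradedAlgebra ℬ],
      (∀ d, ℬ d = (homogeneousSubmodule (Fin (n + 1)) E d).map π.toLinearMap) →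
      ∀ (u : Fin (n + 1) → F), IsCoordinates π u → HasLinearForms M x P u →
      -- every scheme over `E` isomorphic to `Proj ℬ` has a regular proper flat model
      ∀ (V : Scheme.{0}) (f : V ⟶ Spec (CommRingCat.of E)) (i : V ≅ Proj ℬ),
      i.hom ≫ structureMorphism ℬ = f →
      ∃ (Y : Scheme.{0}) (g : Y ⟶ Spec (CommRingCat.of (𝓞 E))), IsRegularProperFlatModel f g := by
  intro E M _ _ _ _ _ _ hin Λ _ _ _ _
  have hfd : FiniteDimensional E M := Module.Finite.of_restrictScalars_finite ℚ E M
  have hcard : ∀ 𝔓 : Ideal (𝓞 M), Nat.card (Pool.Agent.Y223.G.inert E 𝔓) =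
      Nat.card (inertiaGroup E 𝔓) := by
    intro 𝔓
    have h1 : ((Pool.Agent.Y223.G.inert E 𝔓 : Subgroup (M ≃ₐ[E] M)) : Set (M ≃ₐ[E] M)) =
        inertiaGroup E 𝔓 := by
      ext g
      constructor
      · intro hg o
        exact ⟨_, hg o, rfl⟩
      · intro hg o
        obtain ⟨e, he, h⟩ := hg o
        have h2 : e = Pool.Agent.Y223.G.TT E M g o - o := by
          apply NumberField.RingOfIntegers.coe_injective
          exact h
        rw [← h2]
        exact he
    exact congrArg (fun S : Set (M ≃ₐ[E] M) => Nat.card S) h1
  have hin' : ∀ 𝔓 : Ideal (𝓞 M), 𝔓.IsMaximal → ∀ p : ℕ, p.Prime → (p : 𝓞 M) ∈ 𝔓 →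
      ¬ p ^ 2 ∣ Nat.card (Pool.Agent.Y223.G.inert E 𝔓) :=
    fun 𝔓 h𝔓 p hp hp𝔓 hd => hin 𝔓 h𝔓 ⟨p, hp, hp𝔓, by rwa [← hcard]⟩
  constructor
  · obtain ⟨P, hP, hPst⟩ := Pool.Agent.K3h75.TO.t_EXP Pool.Agent.K3h77.EXA.t_EXA
      Pool.Agent.K3h8.Exb.t_EXB Pool.Agent.K3h77.EXC.t_EXC Pool.Agent.K3h75.TO.t_EXD
      (M ≃ₐ[E] M) Λ
    exact ⟨P, ⟨hP.ne, hP.vx⟩, hPst⟩
  · intro P hP hPst F K _ _ _ _ _ _ _ _ ρ x hx hfix n B _ _ π hπ ℬ _ hℬ u hu hseg V f i hi
    obtain ⟨k, m, z, hk, hz, hzs, hxz, hgen, hlin, hreg, e, w, hD⟩ :=
      Pool.Agent.K3h75.TV.t_FML2 (Pool.Agent.K3h75.TV.t_PK2 Pool.Agent.K3h26.LAT.t_LAT)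
      (Pool.Agent.K3h75.TO.t_VREG (Pool.Agent.Y563.GW.t_WCH Pool.Agent.Y901.G.t_WREG)
        Pool.Agent.K3h66.TO.t_IND Pool.Agent.K3h9.TO.t_JAC Pool.Agent.K3h44.Orb.t_ORB)
      (Pool.Agent.K3h75.TO.t_VNZ Pool.Agent.K3h44.Orb.t_ORB Pool.Agent.K3h8.FixZ.t_FIXZ)
      Pool.Agent.K3h66.TO.t_CHT Pool.Agent.K3h66.TO.t_CH0 Pool.Agent.K3h75.TO.t_NUM
      E M hin' Λ P ⟨hP.nonempty, hP.vertex⟩ hPst K ρ hx.semilinear x hx.zero hx.add
      hx.linearIndependent hx.generates hx.equivariant
    have hW : Pool.Agent.R383.TM.WWD E M F K ρ z :=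
      Pool.Agent.R383.TM.wwd_of Pool.Agent.Y223.G.all_TAMC ρ hx.semilinear hfix hin' z hz hgen
        hlin hreg e w hD
    have hM := Pool.Agent.K3h75.TV.good_pow Pool.Agent.Y223.G.all_LINW
      Pool.Agent.Y223.G.all_CHW Pool.Agent.Y223.G.all_RWB Pool.Agent.Y614.H.RegL.t_REGL hW u hk
      (by rw [hseg]; exact Pool.Agent.K3h75.TV.span_z hx.zero hx.add hzs hxz)
    obtain ⟨ε, hε, hεgen, hε1⟩ := Pool.Agent.Y223.INV.exists_eps2 u π hπ ℬ hℬ
      (fun d Q hQ => hu d Q hQ)
    exact Pool.Agent.TH214.RM.hasModel_of_goodModule (O := 𝓞 E) ℬ ε hε hεgen u hε1 hM f i hi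

end Pool.Agent.Results.MP_6a3dac_ag.ToricVarieties
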